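import Mathlib
import Pool.Agent.W54.CL.Stm
import Pool.Agent.W245.TupleOver

set_option autoImplicit false

/-! # Project CL (helper54), part GEN -/

namespace Pool.Agent.W320.CL

open Pool.Agent.W54.CL Pool.Agent.W245 Finset Module

theorem noLin_of_noRelT {κ C : Type*} [Field κ] [Field C] [Algebra κ C] {W : Submodule κ C}
    {l : ℕ} {y : Fin l → C} (h : NoRelT W 1 y) (c : Fin l → C) (hc : ∀ j, c j ∈ W)
    (hs : ∑ j, c j * y j ∈ W) : ∀ j, c j = 0 := by
  classical
  set σ := ∑ j, c j * y j with hσ
  set Q : MvPolynomial (Fin l) C := -MvPolynomial.C σ +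
    ∑ j, MvPolynomial.C (c j) * MvPolynomial.X j with hQ
  have hcoeff : ∀ m : Fin l →₀ ℕ, Q.coeff m = -(if 0 = m then σ else 0) +
      ∑ j, (if Finsupp.single j 1 = m then c j else 0) := by
    intro m
    rw [hQ, MvPolynomial.coeff_add, MvPolynomial.coeff_neg, MvPolynomial.coeff_C,
      MvPolynomial.coeff_sum]
    congr 1
    refine sum_congr rfl fun j _ => ?_
    rw [MvPolynomial.coeff_C_mul, MvPolynomial.coeff_X']
    split_ifs <;> simp
  have hQ0 : Q = 0 := by
    apply h.poly Q
    · intro i
      rw [MvPolynomial.degreeOf_le_iff]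
      intro m hm
      rw [MvPolynomial.mem_support_iff, hcoeff] at hm
      by_cases h0 : (0 : Fin l →₀ ℕ) = m
      · rw [← h0]; simp
      · by_cases h1 : ∃ j, Finsupp.single j 1 = m
        · obtain ⟨j, rfl⟩ := h1
          rw [Finsupp.single_apply]
          split_ifs <;> simp
        · exfalso
          apply hm
          rw [if_neg h0, neg_zero, zero_add]
          refine sum_eq_zero fun j _ => ?_
          rw [if_neg]
          intro h2
          exact h1 ⟨j, h2⟩
    · intro m
      rw [hcoeff]
      apply Submodule.add_mem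
      · apply Submodule.neg_mem
        split_ifs
        · exact hs
        · exact Submodule.zero_mem _
      · apply Submodule.sum_mem
        intro j _
        split_ifs
        · exact hc j
        · exact Submodule.zero_mem _
    · rw [hQ]
      simp [hσ]
  intro j
  have h1 := hcoeff (Finsupp.single j 1)
  rw [hQ0, MvPolynomial.coeff_zero, if_neg, neg_zero, zero_add, sum_eq_single j, if_pos rfl] at h1
  · exact h1.symm
  · intro i _ hij
    rw [if_neg]
    intro h2
    exact hij ((Finsupp.single_left_injective one_ne_zero) h2)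
  · intro h2
    exact absurd (mem_univ j) h2
  · intro h2
    have := DFunLike.congr_fun h2 j
    simp at this

theorem main : StGen := by
  classical
  intro l N ε hε
  obtain ⟨x₀, hx₀⟩ := density_over_tuples l N 1 ε hε
  refine ⟨x₀, fun x hx W hf hW => ?_⟩
  refine le_trans ?_ (hx₀ x hx W hf hW)
  have hI : Finset.Icc 1 x = Finset.Ioc 0 x := by
    ext z
    simp only [Finset.mem_Icc, Finset.mem_Ioc]
    omega
  rw [hI]
  have h2 : ((Fintype.piFinset fun _ : Fin l => Finset.Ioc 0 x).filter fun a =>
      ¬ NoLin W (fun j => Real.log (a j))).card ≤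
      ((Fintype.piFinset fun _ : Fin l => Finset.Ioc 0 x).filter fun a =>
      ¬ NoRelT W 1 (fun i => (Real.log (a i) : ℂ))).card := by
    apply Finset.card_le_card
    intro a ha
    rw [Finset.mem_filter] at ha ⊢
    refine ⟨ha.1, fun hr => ha.2 ?_⟩
    intro c hc hs
    exact noLin_of_noRelT hr c hc hs
  exact_mod_cast h2

theorem pow : StPow := by
  intro W N k hf hW
  induction k with
  | zero =>
    rw [pow_zero, pow_zero, Submodule.one_eq_span]
    refine ⟨FiniteDimensional.span_of_finite _ (Set.finite_singleton _), ?_⟩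
    rw [finrank_span_singleton one_ne_zero]
  | succ k ih =>
    obtain ⟨h1, h2⟩ := ih
    rw [pow_succ, pow_succ]
    haveI := h1
    haveI := hf
    rw [← Submodule.mulMap_range]
    constructor
    · infer_instance
    · refine (LinearMap.finrank_range_le _).trans ?_
      rw [Module.finrank_tensorProduct]
      exact Nat.mul_le_mul h2 hW

end Pool.Agent.W320.CL
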